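import Mathlib

/-!
# UV, block R6: the part of the Euler product over the primes of the resonator, with weights
-/

set_option autoImplicit false

namespace Pool.Agent.Helper90.UV

open Finset

/-- `∏ w p` on squarefree numbers -/
private noncomputable def gA (w : ℕ → ℝ) : ArithmeticFunction ℝ :=
  ⟨fun d => if Squarefree d then ∏ p ∈ d.primeFactors, w p else 0, by simp⟩

/-- `2 ^ ω(m)` -/
private noncomputable def hA : ArithmeticFunction ℝ :=
  ⟨fun m => if m = 0 then 0 else 2 ^ m.primeFactors.card, by simp⟩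

private lemma card_pf {m n : ℕ} (h : m.Coprime n) :
    (m * n).primeFactors.card = m.primeFactors.card + n.primeFactors.card := by
  rw [h.primeFactors_mul, Finset.card_union_of_disjoint h.disjoint_primeFactors]

private lemma gA_apply (w : ℕ → ℝ) (d : ℕ) :
    gA w d = if Squarefree d then ∏ p ∈ d.primeFactors, w p else 0 := rfl

private lemma hA_apply {m : ℕ} (hm : m ≠ 0) : hA m = 2 ^ m.primeFactors.card := if_neg hm

private lemma gA_mult (w : ℕ → ℝ) : (gA w).IsMultiplicative := by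
  refine ArithmeticFunction.IsMultiplicative.iff_ne_zero.mpr ⟨?_, ?_⟩
  · rw [gA_apply]
    simp
  · intro m n hm hn hmn
    rw [gA_apply, gA_apply, gA_apply]
    by_cases h1 : Squarefree m
    · by_cases h2 : Squarefree n
      · rw [if_pos h1, if_pos h2, if_pos ((Nat.squarefree_mul_iff).2 ⟨hmn, h1, h2⟩),
          hmn.primeFactors_mul, Finset.prod_union hmn.disjoint_primeFactors]
      · rw [if_neg h2, if_neg fun h => h2 ((Nat.squarefree_mul_iff).1 h).2.2, mul_zero]
    · rw [if_neg h1, if_neg fun h => h1 ((Nat.squarefree_mul_iff).1 h).2.1, zero_mul]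

private lemma hA_mult : hA.IsMultiplicative := by
  refine ArithmeticFunction.IsMultiplicative.iff_ne_zero.mpr ⟨?_, ?_⟩
  · rw [hA_apply one_ne_zero]
    simp
  · intro m n hm hn hmn
    rw [hA_apply (Nat.mul_ne_zero hm hn), hA_apply hm, hA_apply hn, card_pf hmn, pow_add]

private noncomputable def fA (w : ℕ → ℝ) : ArithmeticFunction ℝ := gA w * hA

private lemma fA_mult (w : ℕ → ℝ) : (fA w).IsMultiplicative := (gA_mult w).mul hA_mult

private lemma fA_eq (w : ℕ → ℝ) {n : ℕ} (hn : n ≠ 0) :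
    fA w n = ∑ d ∈ n.divisors, (if Squarefree d then ∏ p ∈ d.primeFactors, w p else 0) *
      2 ^ (n / d).primeFactors.card := by
  unfold fA
  rw [ArithmeticFunction.mul_apply, Nat.sum_divisorsAntidiagonal (fun i j => gA w i * hA j)]
  refine Finset.sum_congr rfl fun d hd => ?_
  have hd' := Nat.dvd_of_mem_divisors hd
  have h1 : n / d ≠ 0 := (Nat.div_pos (Nat.le_of_dvd (Nat.pos_of_ne_zero hn) hd')
    (Nat.pos_of_dvd_of_pos hd' (Nat.pos_of_ne_zero hn))).ne'
  rw [gA_apply, hA_apply h1]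

private lemma fA_pow {w : ℕ → ℝ} {p : ℕ} (hp : p.Prime) (k : ℕ) :
    fA w (p ^ k) = if k = 0 then 1 else if k = 1 then 2 + w p else 2 + 2 * w p := by
  rcases k with _ | k
  · rw [pow_zero, if_pos rfl]
    exact (fA_mult w).map_one
  · rw [if_neg (Nat.succ_ne_zero k)]
    unfold fA
    rw [ArithmeticFunction.mul_apply, Nat.sum_divisorsAntidiagonal (fun i j => gA w i * hA j),
      Nat.divisors_prime_pow hp, Finset.sum_map]
    have h0 : ∀ i, p ^ i ≠ 0 := fun i => pow_ne_zero _ hp.ne_zero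
    have hterm : ∀ i ∈ Finset.range (k + 1 + 1),
        gA w (p ^ i) * hA (p ^ (k + 1) / p ^ i) =
          (if i = 0 then 2 else 0) + (if i = 1 then (if k = 0 then w p else 2 * w p) else 0) := by
      intro i hi
      have hi' : i ≤ k + 1 := Nat.lt_succ_iff.1 (Finset.mem_range.1 hi)
      rw [Nat.pow_div hi' hp.pos, hA_apply (h0 _), gA_apply]
      rcases Nat.lt_or_ge i 2 with h2 | h2
      · interval_cases i
        · rw [pow_zero, if_pos squarefree_one, Nat.sub_zero, if_pos rfl, if_neg zero_ne_one,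
            Nat.primeFactors_one, Finset.prod_empty, one_mul, add_zero,
            Nat.primeFactors_prime_pow (Nat.succ_ne_zero k) hp, Finset.card_singleton, pow_one]
        · rw [pow_one, if_pos hp.squarefree, if_neg one_ne_zero, if_pos rfl, zero_add,
            hp.primeFactors, Finset.prod_singleton, Nat.add_sub_cancel]
          by_cases hk : k = 0
          · rw [hk, if_pos rfl, pow_zero, Nat.primeFactors_one, Finset.card_empty, pow_zero, mul_one]
          · rw [if_neg hk, Nat.primeFactors_prime_pow hk hp, Finset.card_singleton, pow_one, mul_comm]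
      · have h3 : ¬ Squarefree (p ^ i) := by
          rw [Nat.squarefree_pow_iff hp.ne_one (by omega)]
          omega
        rw [if_neg h3, if_neg (by omega), if_neg (by omega), zero_mul, add_zero]
    refine (Finset.sum_congr rfl hterm).trans ?_
    rw [Finset.sum_add_distrib, Finset.sum_ite_eq', Finset.sum_ite_eq',
      if_pos (Finset.mem_range.2 (by omega)), if_pos (Finset.mem_range.2 (by omega))]
    by_cases hk : k = 0
    · rw [if_pos hk, if_pos (by omega)]
    · rw [if_neg hk, if_neg (by omega)]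

/-- the terms of the series -/
private noncomputable def FF (w : ℕ → ℝ) (n : ℕ) : ℝ := fA w n ^ 2 / n

private lemma FF_one (w : ℕ → ℝ) : FF w 1 = 1 := by
  unfold FF
  rw [(fA_mult w).map_one]
  simp

private lemma FF_mul (w : ℕ → ℝ) {m n : ℕ} (h : m.Coprime n) : FF w (m * n) = FF w m * FF w n := by
  unfold FF
  rw [(fA_mult w).map_mul_of_coprime h]
  push_cast
  rw [mul_pow, mul_div_mul_comm]

private lemma FF_nonneg (w : ℕ → ℝ) (n : ℕ) : 0 ≤ FF w n := by
  unfold FF
  positivity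

private lemma FF_pow {w : ℕ → ℝ} {p : ℕ} (hp : p.Prime) (k : ℕ) :
    FF w (p ^ (k + 2)) = (2 + 2 * w p) ^ 2 / (p : ℝ) ^ 2 * ((p : ℝ)⁻¹) ^ k := by
  have hp0 : (p : ℝ) ≠ 0 := Nat.cast_ne_zero.2 hp.ne_zero
  unfold FF
  rw [fA_pow hp, if_neg (by omega), if_neg (by omega)]
  push_cast
  rw [pow_add, inv_pow]
  field_simp

private lemma FF_series {w : ℕ → ℝ} {p : ℕ} (hp : p.Prime) :
    Summable (fun n : ℕ => FF w (p ^ n)) ∧
      ∑' n : ℕ, FF w (p ^ n) ≤ 1 + (2 + w p) ^ 2 / p + 2 * (2 + 2 * w p) ^ 2 / (p : ℝ) ^ 2 := by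
  have hp2 : (2 : ℝ) ≤ p := by exact_mod_cast hp.two_le
  have hp0 : (p : ℝ) ≠ 0 := by positivity
  have hinv0 : 0 ≤ (p : ℝ)⁻¹ := by positivity
  have hinv : (p : ℝ)⁻¹ ≤ 1 / 2 := by
    rw [inv_eq_one_div]
    exact one_div_le_one_div_of_le (by norm_num) hp2
  have hinv1 : (p : ℝ)⁻¹ < 1 := by linarith
  have h1 : Summable (fun k : ℕ => FF w (p ^ (k + 2))) := by
    have h2 := (summable_geometric_of_lt_one hinv0 hinv1).mul_left ((2 + 2 * w p) ^ 2 / (p : ℝ) ^ 2)
    exact h2.congr fun k => (FF_pow hp k).symm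
  have h2 : Summable (fun n : ℕ => FF w (p ^ n)) := (summable_nat_add_iff 2).1 h1
  refine ⟨h2, ?_⟩
  have h3 := h2.sum_add_tsum_nat_add 2
  rw [← h3, Finset.sum_range_succ, Finset.sum_range_one]
  have h4 : ∑' k : ℕ, FF w (p ^ (k + 2)) ≤ 2 * (2 + 2 * w p) ^ 2 / (p : ℝ) ^ 2 := by
    have h5 : ∑' k : ℕ, FF w (p ^ (k + 2)) =
        ∑' k : ℕ, (2 + 2 * w p) ^ 2 / (p : ℝ) ^ 2 * ((p : ℝ)⁻¹) ^ k :=
      tsum_congr fun k => FF_pow hp k
    rw [h5, tsum_mul_left, tsum_geometric_of_lt_one hinv0 hinv1]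
    have h6 : (1 - (p : ℝ)⁻¹)⁻¹ ≤ 2 := by
      rw [inv_le_comm₀ (by linarith) (by norm_num)]
      linarith
    have h7 : 0 ≤ (2 + 2 * w p) ^ 2 / (p : ℝ) ^ 2 := by positivity
    calc (2 + 2 * w p) ^ 2 / (p : ℝ) ^ 2 * (1 - (p : ℝ)⁻¹)⁻¹
        ≤ (2 + 2 * w p) ^ 2 / (p : ℝ) ^ 2 * 2 := mul_le_mul_of_nonneg_left h6 h7
      _ = 2 * (2 + 2 * w p) ^ 2 / (p : ℝ) ^ 2 := by ring
  have h8 : FF w (p ^ 0) = 1 := by rw [pow_zero, FF_one]
  have h9 : FF w (p ^ 1) = (2 + w p) ^ 2 / p := by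
    unfold FF
    rw [fA_pow hp, if_neg one_ne_zero, if_pos rfl, pow_one]
  rw [h8, h9]
  linarith

/-- R6 -/
theorem ppart {P : Finset ℕ} (hP : ∀ p ∈ P, p.Prime) {w : ℕ → ℝ} (hw : ∀ p ∈ P, 0 ≤ w p) (S : Finset ℕ)
    (hS : ∀ n ∈ S, n ≠ 0 ∧ n.primeFactors ⊆ P) :
    ∑ n ∈ S, (∑ d ∈ n.divisors, (if Squarefree d then ∏ p ∈ d.primeFactors, w p else 0) *
        2 ^ (n / d).primeFactors.card) ^ 2 / (n : ℝ) ≤
      ∏ p ∈ P, (1 + (2 + w p) ^ 2 / p + 2 * (2 + 2 * w p) ^ 2 / (p : ℝ) ^ 2) := by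
  have h1 := EulerProduct.summable_and_hasSum_factoredNumbers_prod_filter_prime_tsum
    (f := FF w) (FF_one w) (fun {m n} h => FF_mul w h)
    (fun {p} hp => by
      refine (FF_series (w := w) hp).1.congr fun n => ?_
      rw [Real.norm_of_nonneg (FF_nonneg w _)]) P
  have h2 : ∑ n ∈ S, (∑ d ∈ n.divisors, (if Squarefree d then ∏ p ∈ d.primeFactors, w p else 0) *
        2 ^ (n / d).primeFactors.card) ^ 2 / (n : ℝ) = ∑ n ∈ S, FF w n := by
    refine Finset.sum_congr rfl fun n hn => ?_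
    unfold FF
    rw [fA_eq w (hS n hn).1]
  rw [h2]
  have hmem : ∀ n ∈ S, n ∈ Nat.factoredNumbers P := fun n hn =>
    Nat.mem_factoredNumbers_of_primeFactors_subset (hS n hn).1 (hS n hn).2
  have h3 : ∑ n ∈ S, FF w n = ∑ x ∈ S.attach.map ⟨fun x => (⟨x.1, hmem x.1 x.2⟩ :
      Nat.factoredNumbers P), fun x y h => Subtype.ext (Subtype.mk.inj h)⟩, FF w x := by
    rw [Finset.sum_map]
    exact (Finset.sum_attach S (fun n => FF w n)).symm
  rw [h3]
  refine (sum_le_hasSum _ (fun x _ => FF_nonneg w _) h1.2).trans ?_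
  rw [Finset.filter_true_of_mem hP]
  exact Finset.prod_le_prod (fun p hp => tsum_nonneg fun n => FF_nonneg w _)
    fun p hp => (FF_series (hP p hp)).2

end Pool.Agent.Helper90.UV
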