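import Pool.Agent.Helper90.UV.M4
import Pool.Agent.Helper36.UV.Fin
import Pool.Agent.Helper25.UV.Bv
import Pool.Agent.Helper68.UV.M3

/-!
# UV, block M4 closed
-/

set_option autoImplicit false

open Pool.Agent.Helper69.UV

namespace Pool.Agent.Helper90.UV

/-- **M4** -/
theorem arith {δ : ℝ} (hδ : 0 < δ) (hδ1 : δ ≤ 1 / 32) : ∃ C c0 T0 : ℝ, 0 < C ∧ ∀ T, T0 ≤ T → ∀ c,
    Adm δ c0 T c → ∀ v : ℝ, v ^ 2 = (1 - 4 * δ) * c →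
    ∀ σ, 1 / 2 + 1 / Real.log T ≤ σ → σ ≤ 3 / 4 → ∀ q : ℕ → ℝ,
      (∀ n, |q n| ≤ |rr δ T c v n| * (n : ℝ) ^ (σ - 1 / 2)) →
    Summable (fun j : ℕ => ((∑ h ∈ j.divisors, gg δ T c h * q (j / h)) - q j) ^ 2 *
      (j : ℝ) ^ (-2 * σ)) ∧
    ∑' j : ℕ, ((∑ h ∈ j.divisors, gg δ T c h * q (j / h)) - q j) ^ 2 * (j : ℝ) ^ (-2 * σ) ≤
      C * T ^ (-(σ - 1 / 2 - 1 / Real.log T) * δ / 16) * Real.exp (C * √c) * VV δ T c v :=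
  arith_of hδ (fun hT _ hn hn2 => gg_gap hδ hT hn hn2) (fun h1 h2 hP1 hP2 => gg_mul h1 h2 hP1 hP2)
    (fun n => gb_le n) (Pool.Agent.Helper36.UV.prod_le_VV hδ hδ1) (Pool.Agent.Helper25.UV.bv hδ hδ1)

end Pool.Agent.Helper90.UV
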